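import Pool.Agent.Helper99.DF.St

/-!
# DF MODULE A1: uniform gap of the log-concavity operator
-/

set_option autoImplicit false

namespace Pool.Agent.Helper9.DF

open Pool.Agent.Helper99.DF

lemma nonneg {S : Finset ℕ} {b : ℕ → ℝ} (h : Per S b) (t k : ℕ) : 0 ≤ (T^[t] b) k := by
  by_cases hk : k ∈ S
  · exact (h.pos hk).le
  · exact (h.zero hk).ge

/-- A1. -/
theorem hA1 (h1 : StVB) : StA1 := by
  classical
  intro S b hb
  set n : ℕ := S.sup id with hn
  refine ⟨(1 / 2 : ℝ) * (1 / 4) ^ ((n + 2) ^ 2), by positivity, ?_, ?_⟩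
  · have : ((1 : ℝ) / 4) ^ ((n + 2) ^ 2) ≤ 1 := pow_le_one₀ (by norm_num) (by norm_num)
    linarith
  · intro t k hk
    set v : ℕ → ℝ := fun k => if k ∈ S then (T^[t + 1] b) k / ((T^[t] b) k) ^ 2 else 1 with hv
    have hvS : ∀ k ∈ S, v k = (T^[t + 1] b) k / ((T^[t] b) k) ^ 2 := fun k hk => by
      simp only [hv, if_pos hk]
    have hvN : ∀ k, k ∉ S → v k = 1 := fun k hk => by
      simp only [hv, if_neg hk]
    have hnS : ∀ k, n < k → k ∉ S := by
      intro k hk hkS
      have : k ≤ n := Finset.le_sup (f := id) hkS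
      omega
    have hpos : ∀ k, 0 < v k ∧ v k ≤ 1 := by
      intro k
      by_cases hk : k ∈ S
      · rw [hvS k hk]
        have a1 : 0 < (T^[t] b) k := hb.pos hk
        have a2 : 0 < (T^[t + 1] b) k := hb.pos hk
        refine ⟨by positivity, ?_⟩
        rw [div_le_one (by positivity), T_succ]
        have := mul_nonneg (nonneg hb t (k - 1)) (nonneg hb t (k + 1))
        linarith
      · rw [hvN k hk]
        exact ⟨one_pos, le_rfl⟩
    have hstep : ∀ k, 1 ≤ k → v (k - 1) * v (k + 1) * (1 - v k) ^ 2 ≤ v k ^ 2 := by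
      intro k _
      by_cases hk : k ∈ act S
      · obtain ⟨k0, k1, k2⟩ := mem_act.1 hk
        rw [hvS k k0, hvS _ k1, hvS _ k2]
        have a0 : 0 < (T^[t] b) k := hb.pos k0
        have a1 : 0 < (T^[t] b) (k - 1) := hb.pos k1
        have a2 : 0 < (T^[t] b) (k + 1) := hb.pos k2
        have e1 : 1 - (T^[t + 1] b) k / ((T^[t] b) k) ^ 2 =
            (T^[t] b) (k - 1) * (T^[t] b) (k + 1) / ((T^[t] b) k) ^ 2 := by
          rw [T_succ]
          field_simp
          ring
        have e2 : 0 < (T^[t + 1 + 1] b) k := hb.pos k0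
        rw [T_succ b (t + 1) k] at e2
        rw [e1]
        have e3 : (T^[t + 1] b) (k - 1) / (T^[t] b) (k - 1) ^ 2 *
            ((T^[t + 1] b) (k + 1) / (T^[t] b) (k + 1) ^ 2) *
            ((T^[t] b) (k - 1) * (T^[t] b) (k + 1) / ((T^[t] b) k) ^ 2) ^ 2 =
            (T^[t + 1] b) (k - 1) * (T^[t + 1] b) (k + 1) / (((T^[t] b) k) ^ 2) ^ 2 := by
          field_simp
        rw [e3, div_pow]
        refine div_le_div_of_nonneg_right ?_ (by positivity)
        linarith
      · have hvk : v k = 1 := by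
          by_cases hkS : k ∈ S
          · rw [hvS k hkS, T_succ]
            have a0 : 0 < (T^[t] b) k := hb.pos hkS
            have h2 : (T^[t] b) (k - 1) * (T^[t] b) (k + 1) = 0 := by
              rw [mem_act] at hk
              by_cases h3 : k - 1 ∈ S
              · have h4 : k + 1 ∉ S := fun h4 => hk ⟨hkS, h3, h4⟩
                rw [hb.zero h4, mul_zero]
              · rw [hb.zero h3, zero_mul]
            rw [h2, sub_zero, div_self (by positivity)]
          · exact hvN k hkS
        rw [hvk]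
        norm_num
    have key := h1 n v hpos (hvN 0 hb.1) (fun k hk => hvN k (hnS k hk)) hstep k
    rw [hvS k hk] at key
    have a0 : 0 < (T^[t] b) k := hb.pos hk
    rwa [le_div_iff₀ (by positivity)] at key

end Pool.Agent.Helper9.DF
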