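import Pool.Agent.Helper99.DF.St

/-!
# DF MODULE LAM: the linearisation is injective
-/

set_option autoImplicit false

namespace Pool.Agent.Helper9.DF

open Pool.Agent.Helper99.DF

/-- LAM. -/
theorem hLAM : StLAM := by
  classical
  intro S Y F τ hYS hY hF hFY hτ0 hτ k0 hk0
  by_contra hne
  obtain ⟨k, hk, hmax⟩ := Finset.exists_max_image S (fun k => |τ k| / F k) ⟨k0, hk0⟩
  set m : ℝ := |τ k| / F k with hm
  have hFk : ∀ j ∈ S, 0 < F j := fun j hj => lt_of_lt_of_le one_pos (hF j hj)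
  have hmpos : 0 < m := by
    have h1 : 0 < |τ k0| / F k0 := div_pos (abs_pos.2 hne) (hFk k0 hk0)
    exact lt_of_lt_of_le h1 (hmax k0 hk0)
  have hle : ∀ j ∈ S, |τ j| ≤ m * F j := fun j hj => by
    have := hmax j hj
    rwa [div_le_iff₀ (hFk j hj)] at this
  have hkY : k ∈ Y := by
    by_contra h
    have h1 := hτ0 k hk h
    rw [hm, h1, abs_zero, zero_div] at hmpos
    exact lt_irrefl _ hmpos
  obtain ⟨h1, h2⟩ := hY k hkY
  have e1 : |τ k| = m * F k := by
    rw [hm, div_mul_cancel₀ _ (hFk k hk).ne']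
  have e2 : 2 * F k * |τ k| ≤ F (k - 1) * |τ (k + 1)| + F (k + 1) * |τ (k - 1)| := by
    have e3 : |2 * F k * τ k| = 2 * F k * |τ k| := by
      rw [abs_mul, abs_of_pos (mul_pos two_pos (hFk k hk))]
    rw [← e3, hτ k hkY]
    refine (abs_add_le _ _).trans (le_of_eq ?_)
    rw [abs_mul, abs_mul, abs_of_pos (hFk _ h1), abs_of_pos (hFk _ h2)]
  have e4 := mul_le_mul_of_nonneg_left (hle _ h2) (hFk _ h1).le
  have e5 := mul_le_mul_of_nonneg_left (hle _ h1) (hFk _ h2).le
  rw [e1] at e2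
  have e6 := hFY k hkY
  have e7 : 0 < m * F k := mul_pos hmpos (hFk k hk)
  have e8 : 2 * F k * (m * F k) ≤ 2 * m * (F k ^ 2 - F k) := by
    have : F (k - 1) * F (k + 1) = F k ^ 2 - F k := by linarith
    calc 2 * F k * (m * F k) ≤ F (k - 1) * (m * F (k + 1)) + F (k + 1) * (m * F (k - 1)) := by
          linarith
      _ = 2 * m * (F (k - 1) * F (k + 1)) := by ring
      _ = _ := by rw [this]
  nlinarith

end Pool.Agent.Helper9.DF
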