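import Pool.Agent.Helper99.DF.St

/-!
# DF MODULE PR2: monomials are primitive recursive
-/

set_option autoImplicit false

namespace Pool.Agent.Helper9.DF

open Pool.Agent.Helper99.DF
open Pool.Agent.Helper4.IL

lemma primrec_int_pow : Primrec₂ (fun (a : ℤ) (n : ℕ) => a ^ n) := by
  have h : Primrec₂ (fun (a : ℤ) (n : ℕ) =>
      Nat.rec (motive := fun _ => ℤ) (1 : ℤ) (fun _ ih => ih * a) n) :=
    Primrec.nat_rec (f := fun _ : ℤ => (1 : ℤ)) (g := fun (a : ℤ) (p : ℕ × ℤ) => p.2 * a)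
      (Primrec.const 1)
      (primrec_int_mul.comp (Primrec.snd.comp Primrec.snd) Primrec.fst)
  refine h.of_eq fun a n => ?_
  induction n with
  | zero => exact (pow_zero a).symm
  | succ n ih =>
    rw [pow_succ, ← ih]

lemma primrec_int_prod : Primrec (fun l : List ℤ => l.prod) := by
  have h : Primrec (fun l : List ℤ => l.foldr (fun x s => x * s) 1) :=
    Primrec.list_foldr (f := fun l : List ℤ => l) (g := fun _ : List ℤ => (1 : ℤ))
      (h := fun (_ : List ℤ) (p : ℤ × ℤ) => p.1 * p.2) Primrec.id (Primrec.const 1)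
      (primrec_int_mul.comp (Primrec.fst.comp Primrec.snd) (Primrec.snd.comp Primrec.snd))
  refine h.of_eq fun l => ?_
  induction l with
  | nil => rfl
  | cons a l ih => rw [List.foldr_cons, List.prod_cons, ih]

lemma primrec_ex : Primrec₂ (fun (e : List ℕ) (k : ℕ) => ex e k) :=
  Primrec.list_getD 0

lemma primrec_sq : Primrec₂ (fun (l : List ℤ) (k : ℕ) => sq l k) :=
  Primrec.list_getD 0

/-- PR2. -/
theorem hPR2 : StPR2 := by
  have hk : Primrec (fun r : ((List ℕ × ℕ) × (List ℕ × List ℤ)) × ℕ => r.2) := Primrec.snd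
  have hN : Primrec (fun r : ((List ℕ × ℕ) × (List ℕ × List ℤ)) × ℕ => r.1.1.2) :=
    Primrec.snd.comp (Primrec.fst.comp Primrec.fst)
  have he : Primrec (fun r : ((List ℕ × ℕ) × (List ℕ × List ℤ)) × ℕ => r.1.2.1) :=
    Primrec.fst.comp (Primrec.snd.comp Primrec.fst)
  have hl : Primrec (fun r : ((List ℕ × ℕ) × (List ℕ × List ℤ)) × ℕ => r.1.2.2) :=
    Primrec.snd.comp (Primrec.snd.comp Primrec.fst)
  have hex : Primrec (fun r : ((List ℕ × ℕ) × (List ℕ × List ℤ)) × ℕ => ex r.1.2.1 r.2) :=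
    primrec_ex.comp he hk
  have hb : ∀ f : ((List ℕ × ℕ) × (List ℕ × List ℤ)) × ℕ → ℕ, Primrec f →
      Primrec (fun r => sq r.1.2.2 (f r)) := fun f hf => primrec_sq.comp hl hf
  have h1 := hb (fun r => r.2 - 1) (Primrec.nat_sub.comp hk (Primrec.const 1))
  have h2 := hb (fun r => r.2 + 1) (Primrec.nat_add.comp hk (Primrec.const 1))
  have h3 := hb (fun r => r.2) hk
  have hg : Primrec (fun r : ((List ℕ × ℕ) × (List ℕ × List ℤ)) × ℕ =>
      (sq r.1.2.2 (r.2 - 1) * sq r.1.2.2 (r.2 + 1)) ^ (ex r.1.2.1 r.2) *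
        (sq r.1.2.2 r.2 ^ 2) ^ (r.1.1.2 - ex r.1.2.1 r.2)) :=
    primrec_int_mul.comp
      (primrec_int_pow.comp (primrec_int_mul.comp h1 h2) hex)
      (primrec_int_pow.comp (primrec_int_pow.comp h3 (Primrec.const 2))
        (Primrec.nat_sub.comp hN hex))
  have hmap := Primrec.list_map (f := fun q : (List ℕ × ℕ) × (List ℕ × List ℤ) => q.1.1)
    (g := fun (q : (List ℕ × ℕ) × (List ℕ × List ℤ)) (k : ℕ) =>
      (sq q.2.2 (k - 1) * sq q.2.2 (k + 1)) ^ (ex q.2.1 k) *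
        (sq q.2.2 k ^ 2) ^ (q.1.2 - ex q.2.1 k))
    (Primrec.fst.comp Primrec.fst) hg
  exact primrec_int_prod.comp hmap

end Pool.Agent.Helper9.DF
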